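import Mathlib

set_option autoImplicit false

/-!
# Small Kakeya sets: the slices of the planar set
-/

open MeasureTheory Set Filter Topology Metric
open scoped ENNReal

namespace Pool.Agent.V7H94.Small

/-- The heights: they sweep `[0, 1]` more and more slowly. -/
noncomputable def s (k : ℕ) : ℝ := (1 + Real.sin (Real.log (k + 1))) / 2

theorem s_mem (k : ℕ) : s k ∈ Icc (0 : ℝ) 1 := by
  unfold s
  constructor
  · linarith [Real.neg_one_le_sin (Real.log (k + 1))]
  · linarith [Real.sin_le_one (Real.log (k + 1))]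

theorem sin_lip (x y : ℝ) : |Real.sin x - Real.sin y| ≤ |x - y| := by
  have h := Real.sin_sub_sin x y
  rw [h, abs_mul, abs_mul, abs_two]
  calc 2 * |Real.sin ((x - y) / 2)| * |Real.cos ((x + y) / 2)|
      ≤ 2 * |(x - y) / 2| * 1 :=
        mul_le_mul (mul_le_mul_of_nonneg_left Real.abs_sin_le_abs (by norm_num))
          (Real.abs_cos_le_one _) (abs_nonneg _) (by positivity)
    _ = |x - y| := by rw [abs_div, abs_two]; ring

theorem s_lip (k j : ℕ) : |s (k + j) - s k| ≤ j / (k + 1) := by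
  unfold s
  have hk : (0 : ℝ) < k + 1 := by positivity
  have h1 : |Real.log ((k + j : ℕ) + 1) - Real.log (k + 1)| ≤ j / (k + 1) := by
    rw [← Real.log_div (by positivity) hk.ne']
    have h2 : ((k + j : ℕ) + 1 : ℝ) / (k + 1) = j / (k + 1) + 1 := by
      push_cast; field_simp; ring
    rw [h2]
    have h3 : (0 : ℝ) ≤ j / (k + 1) := by positivity
    rw [abs_of_nonneg (Real.log_nonneg (by linarith))]
    have := Real.log_le_sub_one_of_pos (x := (j : ℝ) / (k + 1) + 1) (by positivity)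
    linarith
  have h2 := sin_lip (Real.log ((k + j : ℕ) + 1)) (Real.log (k + 1))
  have h3 : (1 + Real.sin (Real.log ((k + j : ℕ) + 1))) / 2 - (1 + Real.sin (Real.log (k + 1))) / 2
      = (Real.sin (Real.log ((k + j : ℕ) + 1)) - Real.sin (Real.log (k + 1))) / 2 := by ring
  rw [h3, abs_div, abs_two]
  have h4 : (0 : ℝ) ≤ j / (k + 1) := by positivity
  linarith

/-- Every `t` is close to a height with index comparable to `exp y`. -/
theorem find {t : ℝ} (ht : t ∈ Icc (0 : ℝ) 1) {y : ℝ} (hy : 3 * Real.pi ≤ y) :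
    ∃ k : ℕ, (k : ℝ) + 1 ≤ Real.exp y ∧ Real.exp y ≤ 2 * Real.exp (3 * Real.pi) * (k + 1) ∧
      |t - s k| ≤ 1 / (k + 1) := by
  have hpi := Real.pi_pos
  set q : ℤ := ⌊(y - Real.pi / 2) / (2 * Real.pi)⌋ with hq
  set x := Real.arcsin (2 * t - 1) + q * (2 * Real.pi) with hx
  have hq1 : (q : ℝ) * (2 * Real.pi) ≤ y - Real.pi / 2 := by
    have := Int.floor_le ((y - Real.pi / 2) / (2 * Real.pi))
    rwa [le_div_iff₀ (by positivity)] at this
  have hq2 : y - Real.pi / 2 < ((q : ℝ) + 1) * (2 * Real.pi) := by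
    have := Int.lt_floor_add_one ((y - Real.pi / 2) / (2 * Real.pi))
    rwa [div_lt_iff₀ (by positivity)] at this
  have ha1 := Real.arcsin_le_pi_div_two (2 * t - 1)
  have ha2 := Real.neg_pi_div_two_le_arcsin (2 * t - 1)
  have hxy : x ≤ y := by linarith
  have hyx : y ≤ x + 3 * Real.pi := by linarith
  have hx0 : 0 ≤ x := by linarith
  have hsin : Real.sin x = 2 * t - 1 := by
    rw [hx, Real.sin_add_int_mul_two_pi, Real.sin_arcsin (by linarith [ht.1]) (by linarith [ht.2])]
  have hex : 1 ≤ Real.exp x := Real.one_le_exp hx0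
  obtain ⟨k, hk⟩ : ∃ k : ℕ, ⌊Real.exp x⌋₊ = k + 1 :=
    Nat.exists_eq_succ_of_ne_zero (Nat.floor_pos.2 hex).ne'
  have hk1 : (k : ℝ) + 1 ≤ Real.exp x := by
    have := Nat.floor_le (Real.exp_pos x).le
    rw [hk] at this
    exact_mod_cast this
  have hk2 : Real.exp x < (k : ℝ) + 1 + 1 := by
    have := Nat.lt_floor_add_one (Real.exp x)
    rw [hk] at this
    exact_mod_cast this
  have hk0 : (0 : ℝ) < (k : ℝ) + 1 := by positivity
  refine ⟨k, hk1.trans (Real.exp_le_exp.2 hxy), ?_, ?_⟩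
  · have h1 : Real.exp y ≤ Real.exp x * Real.exp (3 * Real.pi) := by
      rw [← Real.exp_add]; exact Real.exp_le_exp.2 hyx
    have h2 : Real.exp x ≤ 2 * (k + 1) := by
      have : (0 : ℝ) ≤ k := Nat.cast_nonneg k
      linarith
    calc Real.exp y ≤ Real.exp x * Real.exp (3 * Real.pi) := h1
      _ ≤ (2 * (k + 1)) * Real.exp (3 * Real.pi) := by gcongr
      _ = _ := by ring
  · have h1 : |x - Real.log (k + 1)| ≤ 1 / (k + 1) := by
      have h2 : Real.log (k + 1) ≤ x := by
        rw [Real.log_le_iff_le_exp hk0]; exact hk1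
      rw [abs_of_nonneg (by linarith)]
      have h3 : x < Real.log ((k : ℝ) + 1 + 1) := by
        rw [Real.lt_log_iff_exp_lt (by positivity)]; exact hk2
      have h4 : Real.log ((k : ℝ) + 1 + 1) - Real.log (k + 1) ≤ 1 / (k + 1) := by
        rw [← Real.log_div (by positivity) hk0.ne']
        have h5 : ((k : ℝ) + 1 + 1) / (k + 1) = 1 / (k + 1) + 1 := by field_simp; ring
        rw [h5]
        have := Real.log_le_sub_one_of_pos (x := (1 : ℝ) / (k + 1) + 1) (by positivity)
        linarith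
      linarith
    have h2 : t - s k = (Real.sin x - Real.sin (Real.log (k + 1))) / 2 := by
      unfold s; rw [hsin]; ring
    rw [h2, abs_div, abs_two]
    have h3 := sin_lip x (Real.log (k + 1))
    have h4 : (0 : ℝ) ≤ 1 / (k + 1) := by positivity
    linarith

/-- Digits. -/
abbrev Dg : Type := ℕ → Fin 2

/-- The `k`-th digit term is at most `2^{-(k+1)}`. -/
theorem dt_nonneg (b : Dg) (k : ℕ) : 0 ≤ Real.ofDigitsTerm b k := Real.ofDigitsTerm_nonneg

theorem dt_le (b : Dg) (k : ℕ) : Real.ofDigitsTerm b k ≤ (1 / 2) ^ (k + 1) := by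
  have := Real.ofDigitsTerm_le (digits := b) (n := k)
  refine this.trans (le_of_eq ?_)
  push_cast
  rw [one_div, inv_pow]
  ring

theorem dt_abs (b : Dg) (k : ℕ) : |Real.ofDigitsTerm b k| ≤ (1 / 2) ^ (k + 1) := by
  rw [abs_of_nonneg (dt_nonneg b k)]; exact dt_le b k

theorem geo_sum : Summable (fun k : ℕ => ((1 : ℝ) / 2) ^ (k + 1)) :=
  (summable_nat_add_iff 1).2 (summable_geometric_of_lt_one (by norm_num) (by norm_num))

theorem geo_tsum : ∑' k : ℕ, ((1 : ℝ) / 2) ^ (k + 1) = 1 := by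
  have h := tsum_geometric_two
  have h2 : Summable (fun k : ℕ => ((1 : ℝ) / 2) ^ k) := summable_geometric_two
  rw [h2.tsum_eq_zero_add] at h
  simp only [pow_zero] at h
  linarith

/-- The position of the line with the digits `b` at height `t`, up to scaling. -/
noncomputable def pos (t : ℝ) (b : Dg) : ℝ := ∑' k, (t - s k) * Real.ofDigitsTerm b k

theorem ts_abs {t : ℝ} (ht : t ∈ Icc (0 : ℝ) 1) (k : ℕ) : |t - s k| ≤ 1 := by
  have h := s_mem k
  rw [abs_le]
  constructor <;> linarith [ht.1, ht.2, h.1, h.2]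

theorem s_abs (k : ℕ) : |s k| ≤ 1 := by
  rw [abs_of_nonneg (s_mem k).1]; exact (s_mem k).2

theorem sum_s (b : Dg) : Summable (fun k => s k * Real.ofDigitsTerm b k) := by
  refine Summable.of_norm_bounded geo_sum fun k => ?_
  rw [norm_mul, Real.norm_eq_abs, Real.norm_eq_abs]
  calc |s k| * |Real.ofDigitsTerm b k| ≤ 1 * (1 / 2) ^ (k + 1) :=
        mul_le_mul (s_abs k) (dt_abs b k) (abs_nonneg _) zero_le_one
    _ = _ := one_mul _

theorem sum_pos (t : ℝ) (b : Dg) : Summable (fun k => (t - s k) * Real.ofDigitsTerm b k) := by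
  have h := (Real.summable_ofDigitsTerm (digits := b)).mul_left t
  refine (h.sub (sum_s b)).congr fun k => ?_
  ring

/-- The position at height `0`. -/
noncomputable def start (b : Dg) : ℝ := - ∑' k, s k * Real.ofDigitsTerm b k

theorem pos_eq (t : ℝ) (b : Dg) : pos t b = start b + t * Real.ofDigits b := by
  unfold pos start Real.ofDigits
  rw [← tsum_mul_left, neg_add_eq_sub,
    ← ((Real.summable_ofDigitsTerm (digits := b)).mul_left t).tsum_sub (sum_s b)]
  congr 1; funext k; ring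

theorem start_cont : Continuous start := by
  unfold start
  refine (continuous_tsum (u := fun k : ℕ => ((1 : ℝ) / 2) ^ (k + 1)) ?_ geo_sum ?_).neg
  · intro k
    unfold Real.ofDigitsTerm
    refine continuous_const.mul (Continuous.mul ?_ continuous_const)
    exact (continuous_of_discreteTopology (f := fun i : Fin 2 => (((i : ℕ) : ℝ)))).comp
      (continuous_apply k)
  · intro k b
    rw [norm_mul, Real.norm_eq_abs, Real.norm_eq_abs]
    calc |s k| * |Real.ofDigitsTerm b k| ≤ 1 * (1 / 2) ^ (k + 1) :=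
          mul_le_mul (s_abs k) (dt_abs b k) (abs_nonneg _) zero_le_one
      _ = _ := one_mul _

/-- The position with slope `2 v - 1`. -/
noncomputable def pos' (t : ℝ) (b : Dg) : ℝ := 2 * pos t b - t

theorem pos'_eq (t : ℝ) (b : Dg) : pos' t b = 2 * start b + t * (2 * Real.ofDigits b - 1) := by
  unfold pos'; rw [pos_eq]; ring

theorem pos'_cont : Continuous (fun p : ℝ × Dg => pos' p.1 p.2) := by
  have h1 := start_cont
  have h2 : Continuous (@Real.ofDigits 2) := Real.continuous_ofDigits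
  simp_rw [pos'_eq]
  fun_prop

theorem pos'_lip (t t' : ℝ) (b : Dg) : |pos' t b - pos' t' b| ≤ |t - t'| := by
  rw [pos'_eq, pos'_eq]
  have h1 := Real.ofDigits_nonneg b
  have h2 := Real.ofDigits_le_one b
  have h3 : 2 * start b + t * (2 * Real.ofDigits b - 1) - (2 * start b + t' * (2 * Real.ofDigits b - 1))
      = (t - t') * (2 * Real.ofDigits b - 1) := by ring
  rw [h3, abs_mul]
  have h4 : |2 * Real.ofDigits b - 1| ≤ 1 := by rw [abs_le]; constructor <;> linarith
  calc |t - t'| * |2 * Real.ofDigits b - 1| ≤ |t - t'| * 1 := by gcongr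
    _ = _ := mul_one _

/-- The slice of the planar set at height `t`. -/
def A (t : ℝ) : Set ℝ := range (pos' t)

theorem tail_bound {t : ℝ} (b : Dg) (k0 : ℕ) :
    |∑' k, (t - s (k + k0)) * Real.ofDigitsTerm b (k + k0)| ≤
      (1 / 2) ^ k0 * (|t - s k0| + 1 / (k0 + 1)) := by
  have hk : (0 : ℝ) < (k0 : ℝ) + 1 := by positivity
  have hs1 : Summable (fun k : ℕ => (k : ℝ) * ((1 : ℝ) / 2) ^ k) := by
    have := summable_pow_mul_geometric_of_norm_lt_one 1 (r := (1 : ℝ) / 2) (by norm_num)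
    simpa using this
  have hs2 : Summable (fun k : ℕ => ((1 : ℝ) / 2) ^ k) := summable_geometric_two
  have e1 : ∑' k : ℕ, (k : ℝ) * ((1 : ℝ) / 2) ^ k = 2 := by
    rw [tsum_coe_mul_geometric_of_norm_lt_one (by norm_num)]; norm_num
  have hb : HasSum (fun k : ℕ => (1 / 2 : ℝ) ^ k0 * (1 / 2) *
      (|t - s k0| * (1 / 2) ^ k + 1 / (k0 + 1) * ((k : ℝ) * (1 / 2) ^ k)))
      ((1 / 2) ^ k0 * (1 / 2) * (|t - s k0| * 2 + 1 / (k0 + 1) * 2)) := by
    refine HasSum.mul_left _ (HasSum.add (HasSum.mul_left _ ?_) (HasSum.mul_left _ ?_))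
    · exact hasSum_geometric_two
    · have h0 := hs1.hasSum
      rwa [e1] at h0
  have h := tsum_of_norm_bounded hb (f := fun k => (t - s (k + k0)) * Real.ofDigitsTerm b (k + k0)) (by
    intro k
    rw [norm_mul, Real.norm_eq_abs, Real.norm_eq_abs]
    have h1 : |t - s (k + k0)| ≤ |t - s k0| + 1 / (k0 + 1) * k := by
      have h2 := s_lip k0 k
      rw [add_comm k0 k] at h2
      have h3 : t - s (k + k0) = (t - s k0) - (s (k + k0) - s k0) := by ring
      rw [h3]
      refine (abs_sub _ _).trans ?_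
      have h4 : (k : ℝ) / (k0 + 1) = 1 / (k0 + 1) * k := by ring
      rw [h4] at h2
      linarith
    calc |t - s (k + k0)| * |Real.ofDigitsTerm b (k + k0)|
        ≤ (|t - s k0| + 1 / (k0 + 1) * k) * (1 / 2) ^ (k + k0 + 1) :=
          mul_le_mul h1 (dt_abs b _) (abs_nonneg _) (by positivity)
      _ = _ := by rw [pow_succ, pow_add]; ring)
  rw [Real.norm_eq_abs] at h
  refine h.trans (le_of_eq ?_)
  ring

/-- The slice is covered by `2 ^ k0` short intervals. -/
theorem cover {t : ℝ} (k0 : ℕ) : ∃ c : (Fin k0 → Fin 2) → ℝ,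
    A t ⊆ ⋃ p, closedBall (c p) (2 * ((1 / 2) ^ k0 * (|t - s k0| + 1 / (k0 + 1)))) := by
  classical
  refine ⟨fun p => 2 * (∑ i : Fin k0, (t - s i) * (((p i : ℕ) : ℝ) * (((2 : ℕ) : ℝ) ^ ((i : ℕ) + 1))⁻¹)) - t,
    ?_⟩
  rintro _ ⟨b, rfl⟩
  rw [mem_iUnion]
  refine ⟨fun i => b i, ?_⟩
  rw [mem_closedBall, Real.dist_eq]
  unfold pos' pos
  rw [← (sum_pos t b).sum_add_tsum_nat_add k0]
  have e1 : ∑ i ∈ Finset.range k0, (t - s i) * Real.ofDigitsTerm b i =
      ∑ i : Fin k0, (t - s i) * (((b i : ℕ) : ℝ) * (((2 : ℕ) : ℝ) ^ ((i : ℕ) + 1))⁻¹) := by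
    rw [Finset.sum_range]
    rfl
  rw [e1]
  have e2 : ∀ x y : ℝ, 2 * (x + y) - t - (2 * x - t) = 2 * y := fun x y => by ring
  rw [e2, abs_mul, abs_two]
  have := tail_bound (t := t) b k0
  linarith

theorem A_bdd {t : ℝ} (ht : t ∈ Icc (0 : ℝ) 1) : A t ⊆ closedBall 0 3 := by
  rintro _ ⟨b, rfl⟩
  rw [mem_closedBall_zero_iff, Real.norm_eq_abs, pos'_eq]
  have h1 := Real.ofDigits_nonneg b
  have h2 := Real.ofDigits_le_one b
  have h3 : |start b| ≤ 1 := by
    unfold start
    rw [abs_neg]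
    have hg : HasSum (fun k : ℕ => ((1 : ℝ) / 2) ^ (k + 1)) 1 := by
      have h0 := geo_sum.hasSum
      rwa [geo_tsum] at h0
    have := tsum_of_norm_bounded hg (f := fun k => s k * Real.ofDigitsTerm b k) (by
      intro k
      rw [norm_mul, Real.norm_eq_abs, Real.norm_eq_abs]
      calc |s k| * |Real.ofDigitsTerm b k| ≤ 1 * (1 / 2) ^ (k + 1) :=
            mul_le_mul (s_abs k) (dt_abs b k) (abs_nonneg _) zero_le_one
        _ = _ := one_mul _)
    simpa [Real.norm_eq_abs] using this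
  refine (abs_add_le _ _).trans ?_
  rw [abs_mul, abs_mul, abs_two, abs_of_nonneg ht.1]
  have h4 : |2 * Real.ofDigits b - 1| ≤ 1 := by rw [abs_le]; constructor <;> linarith
  have h5 : t * |2 * Real.ofDigits b - 1| ≤ 1 * 1 :=
    mul_le_mul ht.2 h4 (abs_nonneg _) zero_le_one
  linarith

/-- **The neighbourhoods of all the slices are small.** -/
theorem slice_small : ∃ C : ℝ, 0 < C ∧ ∀ t ∈ Icc (0 : ℝ) 1, ∀ δ : ℝ, 0 < δ → δ < 1 →
    volume (thickening (2 * δ) (A t)) ≤ ENNReal.ofReal (C / Real.log (1 / δ)) := by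
  set E := Real.exp (3 * Real.pi) with hE
  have hE0 : 0 < E := Real.exp_pos _
  refine ⟨32 * E + 8 + 10 * (2 * E), by positivity, ?_⟩
  intro t ht δ hδ hδ1
  set lam := Real.log (1 / δ) with hlam
  have hlam0 : 0 < lam := Real.log_pos (by rw [lt_div_iff₀ hδ]; linarith)
  have hδe : δ = Real.exp (-lam) := by
    rw [hlam, one_div, Real.log_inv, neg_neg, Real.exp_log hδ]
  by_cases hbig : 2 * E ≤ lam
  · obtain ⟨k, hk1, hk2, hk3⟩ := find ht (y := Real.log (lam / 2)) (by
      rw [Real.le_log_iff_exp_le (by positivity)]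
      linarith)
    rw [Real.exp_log (by positivity)] at hk1 hk2
    rw [← hE] at hk2
    have hk0 : (0 : ℝ) < (k : ℝ) + 1 := by positivity
    obtain ⟨c, hc⟩ := cover (t := t) k
    set r := 2 * ((1 / 2 : ℝ) ^ k * (|t - s k| + 1 / (k + 1))) with hr
    have h1 : thickening (2 * δ) (A t) ⊆ ⋃ p, closedBall (c p) (r + 2 * δ) := by
      intro x hx
      obtain ⟨z, hz, hxz⟩ := mem_thickening_iff.1 hx
      obtain ⟨p, hp⟩ := mem_iUnion.1 (hc hz)
      refine mem_iUnion.2 ⟨p, ?_⟩
      rw [mem_closedBall] at hp ⊢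
      have := dist_triangle x z (c p)
      linarith
    have h2 : volume (⋃ p, closedBall (c p) (r + 2 * δ)) ≤
        ENNReal.ofReal (2 ^ k * (2 * (r + 2 * δ))) := by
      refine (measure_iUnion_le _).trans ?_
      simp_rw [Real.volume_closedBall]
      have e3 : ENNReal.ofReal (2 ^ k * (2 * (r + 2 * δ))) =
          2 ^ k * ENNReal.ofReal (2 * (r + 2 * δ)) := by
        rw [ENNReal.ofReal_mul (p := (2 : ℝ) ^ k) (by positivity),
          ENNReal.ofReal_pow (by norm_num)]
        norm_num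
      rw [e3, tsum_fintype, Finset.sum_const, nsmul_eq_mul, Finset.card_univ, Fintype.card_fun,
        Fintype.card_fin, Fintype.card_fin]
      refine le_of_eq ?_
      push_cast
      rfl
    refine (measure_mono h1).trans (h2.trans (ENNReal.ofReal_le_ofReal ?_))
    have h3 : (2 : ℝ) ^ k * (1 / 2 : ℝ) ^ k = 1 := by
      rw [← mul_pow]; norm_num
    have h4 : 1 / ((k : ℝ) + 1) ≤ 4 * E / lam := by
      rw [div_le_div_iff₀ hk0 hlam0]
      nlinarith
    have h5 : (2 : ℝ) ^ k * δ ≤ 2 / lam := by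
      have h6 : (2 : ℝ) ^ k ≤ Real.exp (lam / 2) := by
        have h7 : (2 : ℝ) ^ k ≤ Real.exp 1 ^ k := by
          gcongr
          linarith [Real.add_one_le_exp (1 : ℝ)]
        refine h7.trans ?_
        rw [← Real.exp_nat_mul, mul_one]
        apply Real.exp_le_exp.2
        linarith
      have h8 : lam / 2 ≤ Real.exp (lam / 2) := by
        linarith [Real.add_one_le_exp (lam / 2)]
      have h9 : Real.exp (lam / 2) * Real.exp (-lam) = (Real.exp (lam / 2))⁻¹ := by
        rw [← Real.exp_add, ← Real.exp_neg]; congr 1; ring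
      calc (2 : ℝ) ^ k * δ ≤ Real.exp (lam / 2) * Real.exp (-lam) := by
            rw [← hδe]; gcongr
        _ = (Real.exp (lam / 2))⁻¹ := h9
        _ ≤ (lam / 2)⁻¹ := by
            apply inv_anti₀ (by positivity) h8
        _ = 2 / lam := by rw [inv_div]
    calc (2 : ℝ) ^ k * (2 * (r + 2 * δ))
        = 4 * ((2 : ℝ) ^ k * (1 / 2 : ℝ) ^ k) * (|t - s k| + 1 / (k + 1)) +
            4 * ((2 : ℝ) ^ k * δ) := by rw [hr]; ring
      _ ≤ 4 * 1 * (1 / (k + 1) + 1 / (k + 1)) + 4 * (2 / lam) := by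
          rw [h3]; gcongr
      _ ≤ 4 * 1 * (4 * E / lam + 4 * E / lam) + 4 * (2 / lam) := by gcongr
      _ = (32 * E + 8) / lam := by ring
      _ ≤ (32 * E + 8 + 10 * (2 * E)) / lam := by
          apply div_le_div_of_nonneg_right _ hlam0.le
          have : 0 < 10 * (2 * E) := by positivity
          linarith
  · push Not at hbig
    have h1 : thickening (2 * δ) (A t) ⊆ closedBall 0 5 := by
      intro x hx
      obtain ⟨z, hz, hxz⟩ := mem_thickening_iff.1 hx
      have h2 := A_bdd ht hz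
      rw [mem_closedBall] at h2 ⊢
      have := dist_triangle x z 0
      linarith
    refine (measure_mono h1).trans ?_
    rw [Real.volume_closedBall]
    apply ENNReal.ofReal_le_ofReal
    rw [le_div_iff₀ hlam0]
    nlinarith

end Pool.Agent.V7H94.Small
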