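import Pool.Agent.V7H94.Small.Line

set_option autoImplicit false

/-!
# Small Kakeya sets in all dimensions
-/

open MeasureTheory Set Filter Topology Metric
open scoped ENNReal

namespace Pool.Agent.V7H94.Small

variable {n : ℕ}

/-- The part of the Kakeya set with `x j` as the height. -/
def part (j : Fin n) : Set (EuclideanSpace ℝ (Fin n)) :=
  {x | x j ∈ Icc (0 : ℝ) 1 ∧ ∀ i, i ≠ j → x i ∈ A (x j)}

/-- Its parametrization. -/
noncomputable def par (j : Fin n) (p : ℝ × (Fin n → Dg)) : EuclideanSpace ℝ (Fin n) :=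
  WithLp.toLp 2 (fun i => if i = j then p.1 else pos' p.1 (p.2 i))

theorem par_cont (j : Fin n) : Continuous (par j) := by
  refine (PiLp.continuous_toLp 2 _).comp (continuous_pi fun i => ?_)
  by_cases h : i = j
  · simp only [h, if_true]; exact continuous_fst
  · simp only [h, if_false]
    exact pos'_cont.comp (continuous_fst.prodMk ((continuous_apply i).comp continuous_snd))

theorem part_eq (j : Fin n) : part j = par j '' (Icc (0 : ℝ) 1 ×ˢ univ) := by
  classical
  ext x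
  constructor
  · rintro ⟨h0, h1⟩
    choose b hb using fun i (hi : i ≠ j) => h1 i hi
    refine ⟨(x j, fun i => if h : i = j then (fun _ => 0) else b i h), ⟨h0, trivial⟩, ?_⟩
    ext i
    by_cases hi : i = j
    · subst hi; simp [par]
    · simp [par, hi, hb]
  · rintro ⟨⟨t, b⟩, ⟨ht, -⟩, rfl⟩
    refine ⟨by simpa [par] using ht, fun i hi => ?_⟩
    simp only [par, hi, if_false, if_true]
    exact ⟨b i, rfl⟩

theorem part_compact (j : Fin n) : IsCompact (part j) := by
  rw [part_eq]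
  exact (isCompact_Icc.prod isCompact_univ).image (par_cont j)

/-- The Kakeya set. -/
def kak (n : ℕ) : Set (EuclideanSpace ℝ (Fin n)) := ⋃ j, part j

theorem kak_compact (n : ℕ) : IsCompact (kak n) := isCompact_iUnion part_compact

theorem kak_segment (hn : 1 ≤ n) (e : EuclideanSpace ℝ (Fin n)) (he : ‖e‖ = 1) :
    ∃ a : EuclideanSpace ℝ (Fin n), ∀ t ∈ Icc (0 : ℝ) 1, a + t • e ∈ kak n := by
  classical
  haveI : Nonempty (Fin n) := ⟨⟨0, hn⟩⟩
  obtain ⟨j, hj⟩ := Finite.exists_max (fun i => |e i|)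
  have hj0 : e j ≠ 0 := by
    intro h0
    have : e = 0 := by
      ext i
      have := hj i
      simp only [h0, abs_zero] at this
      simpa using abs_nonpos_iff.1 this
    rw [this, norm_zero] at he
    exact zero_ne_one he
  have hj1 : |e j| ≤ 1 := by
    have := PiLp.norm_apply_le e j
    rwa [he, Real.norm_eq_abs] at this
  have hv : ∀ i, ∃ b : Dg, Real.ofDigits b = (e i / e j + 1) / 2 := by
    intro i
    have h1 : |e i / e j| ≤ 1 := by
      rw [abs_div, div_le_one (abs_pos.2 hj0)]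
      exact hj i
    rw [abs_le] at h1
    obtain ⟨b, -, hb⟩ := Real.ofDigits_SurjOn (b := 2) one_lt_two
      (a := (e i / e j + 1) / 2) (by constructor <;> linarith)
    exact ⟨b, hb⟩
  choose b hb using hv
  set u : ℝ := if 0 < e j then 0 else 1 with hu
  have hu1 : ∀ t ∈ Icc (0 : ℝ) 1, u + t * e j ∈ Icc (0 : ℝ) 1 := by
    intro t ht
    rw [abs_le] at hj1
    by_cases h : 0 < e j
    · simp only [hu, h, if_true, zero_add]
      exact ⟨mul_nonneg ht.1 h.le, by nlinarith [ht.1, ht.2]⟩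
    · have h' : e j ≤ 0 := not_lt.1 h
      simp only [hu, h, if_false]
      constructor
      · nlinarith [ht.1, ht.2, hj1.1]
      · nlinarith [ht.1, ht.2, hj1.1]
  refine ⟨WithLp.toLp 2 (fun i => if i = j then u else 2 * start (b i) + u * (e i / e j)), ?_⟩
  intro t ht
  refine mem_iUnion.2 ⟨j, ?_, ?_⟩
  · simpa using hu1 t ht
  · intro i hi
    refine ⟨b i, ?_⟩
    rw [pos'_eq, hb]
    simp only [PiLp.add_apply, PiLp.smul_apply, smul_eq_mul, hi, if_false, if_true]
    field_simp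
    ring

/-- The covering of the neighbourhood. -/
theorem part_nbhd (j : Fin n) {δ : ℝ} (hδ : 0 < δ) (hδ1 : δ < 1) :
    thickening δ (part j) ⊆ ⋃ q ∈ Finset.range (⌊1 / δ⌋₊ + 1),
      (WithLp.ofLp : EuclideanSpace ℝ (Fin n) → Fin n → ℝ) ⁻¹' (Set.pi univ fun i =>
        if i = j then Icc (q * δ - δ) (q * δ + 2 * δ) else thickening (2 * δ) (A (q * δ))) := by
  intro x hx
  obtain ⟨z, ⟨hz0, hz1⟩, hxz⟩ := mem_thickening_iff.1 hx
  have hco : ∀ i, |x i - z i| < δ := by
    intro i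
    have := PiLp.norm_apply_le (x - z) i
    rw [Real.norm_eq_abs] at this
    rw [dist_eq_norm] at hxz
    exact lt_of_le_of_lt this hxz
  have hf1 : (⌊z j / δ⌋₊ : ℝ) * δ ≤ z j := by
    have := Nat.floor_le (div_nonneg hz0.1 hδ.le)
    rwa [le_div_iff₀ hδ] at this
  have hf2 : z j < (⌊z j / δ⌋₊ : ℝ) * δ + δ := by
    have := Nat.lt_floor_add_one (z j / δ)
    rw [div_lt_iff₀ hδ] at this
    linarith
  rw [mem_iUnion₂]
  refine ⟨⌊z j / δ⌋₊, ?_, ?_⟩
  · rw [Finset.mem_range]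
    refine Nat.lt_succ_of_le (Nat.floor_le_floor ?_)
    gcongr
    exact hz0.2
  · intro i _
    by_cases hi : i = j
    · subst hi
      simp only [if_true]
      have := abs_lt.1 (hco i)
      constructor <;> linarith [this.1, this.2]
    · simp only [hi, if_false]
      obtain ⟨b, hb⟩ := hz1 i hi
      refine mem_thickening_iff.2 ⟨pos' (⌊z j / δ⌋₊ * δ) b, ⟨b, rfl⟩, ?_⟩
      have h1 := pos'_lip (z j) (⌊z j / δ⌋₊ * δ) b
      have h2 : |z j - ⌊z j / δ⌋₊ * δ| < δ := by
        rw [abs_lt]; constructor <;> linarith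
      rw [hb] at h1
      rw [Real.dist_eq]
      have h3 : x i - pos' (⌊z j / δ⌋₊ * δ) b =
          (x i - z i) + (z i - pos' (⌊z j / δ⌋₊ * δ) b) := by ring
      rw [h3]
      refine lt_of_le_of_lt (abs_add_le _ _) ?_
      linarith [hco i]

theorem part_vol : ∃ C : ℝ, 0 < C ∧ ∀ j : Fin n, ∀ δ : ℝ, 0 < δ → δ < 1 →
    volume (thickening δ (part j)) ≤ ENNReal.ofReal (6 * (C / Real.log (1 / δ)) ^ (n - 1)) := by
  classical
  obtain ⟨C, hC, h⟩ := slice_small
  refine ⟨C, hC, fun j δ hδ hδ1 => ?_⟩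
  have hlam0 : 0 < Real.log (1 / δ) := Real.log_pos (by rw [lt_div_iff₀ hδ]; linarith)
  refine (measure_mono (part_nbhd j hδ hδ1)).trans ?_
  refine (measure_biUnion_finset_le _ _).trans ?_
  have key : ∀ q ∈ Finset.range (⌊1 / δ⌋₊ + 1),
      volume ((WithLp.ofLp : EuclideanSpace ℝ (Fin n) → Fin n → ℝ) ⁻¹' (Set.pi univ fun i =>
        if i = j then Icc (q * δ - δ) (q * δ + 2 * δ) else thickening (2 * δ) (A (q * δ)))) ≤
      ENNReal.ofReal (3 * δ * (C / Real.log (1 / δ)) ^ (n - 1)) := by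
    intro q hq
    have hq1 : (q : ℝ) * δ ∈ Icc (0 : ℝ) 1 := by
      rw [Finset.mem_range] at hq
      have h1 : (q : ℝ) ≤ ⌊1 / δ⌋₊ := by exact_mod_cast Nat.lt_succ_iff.1 hq
      have h2 : (q : ℝ) ≤ 1 / δ := h1.trans (Nat.floor_le (by positivity))
      rw [le_div_iff₀ hδ] at h2
      exact ⟨by positivity, h2⟩
    have hmeas : MeasurableSet (Set.pi univ fun i =>
        if i = j then Icc ((q : ℝ) * δ - δ) (q * δ + 2 * δ)
          else thickening (2 * δ) (A (q * δ))) := by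
      refine MeasurableSet.univ_pi fun i => ?_
      split_ifs
      · exact measurableSet_Icc
      · exact isOpen_thickening.measurableSet
    rw [(PiLp.volume_preserving_ofLp (Fin n)).measure_preimage hmeas.nullMeasurableSet,
      volume_pi_pi, ← Finset.mul_prod_erase _ _ (Finset.mem_univ j)]
    have e1 : ∏ i ∈ Finset.univ.erase j, volume (if i = j then Icc ((q : ℝ) * δ - δ) (q * δ + 2 * δ)
        else thickening (2 * δ) (A (q * δ))) ≤
        ∏ i ∈ (Finset.univ : Finset (Fin n)).erase j, ENNReal.ofReal (C / Real.log (1 / δ)) := by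
      refine Finset.prod_le_prod' fun i hi => ?_
      rw [if_neg (Finset.ne_of_mem_erase hi)]
      exact h _ hq1 δ hδ hδ1
    rw [Finset.prod_const, Finset.card_erase_of_mem (Finset.mem_univ j), Finset.card_univ,
      Fintype.card_fin] at e1
    rw [ENNReal.ofReal_mul (by positivity), ENNReal.ofReal_pow (by positivity)]
    refine mul_le_mul' ?_ e1
    rw [if_pos rfl, Real.volume_Icc]
    refine ENNReal.ofReal_le_ofReal (le_of_eq ?_)
    ring
  refine (Finset.sum_le_sum key).trans ?_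
  rw [Finset.sum_const, Finset.card_range, nsmul_eq_mul, ← ENNReal.ofReal_natCast,
    ← ENNReal.ofReal_mul (by positivity)]
  refine ENNReal.ofReal_le_ofReal ?_
  push_cast
  have h1 : (⌊1 / δ⌋₊ : ℝ) ≤ 1 / δ := Nat.floor_le (by positivity)
  have h2 : ((⌊1 / δ⌋₊ : ℝ) + 1) * (3 * δ) ≤ 6 := by
    have : ((⌊1 / δ⌋₊ : ℝ) + 1) * (3 * δ) ≤ (1 / δ + 1) * (3 * δ) := by gcongr
    refine this.trans ?_
    have : (1 / δ + 1) * (3 * δ) = 3 + 3 * δ := by field_simp
    rw [this]; linarith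
  have h3 : 0 ≤ (C / Real.log (1 / δ)) ^ (n - 1) := by positivity
  calc ((⌊1 / δ⌋₊ : ℝ) + 1) * (3 * δ * (C / Real.log (1 / δ)) ^ (n - 1))
      = (((⌊1 / δ⌋₊ : ℝ) + 1) * (3 * δ)) * (C / Real.log (1 / δ)) ^ (n - 1) := by ring
    _ ≤ 6 * (C / Real.log (1 / δ)) ^ (n - 1) := by gcongr

theorem main (n : ℕ) (hn : 1 ≤ n) :
    IsCompact (kak n) ∧
    (∀ e : EuclideanSpace ℝ (Fin n), ‖e‖ = 1 →
      ∃ a : EuclideanSpace ℝ (Fin n), ∀ t ∈ Icc (0 : ℝ) 1, a + t • e ∈ kak n) ∧
    ∃ C : ℝ, 0 < C ∧ ∀ δ : ℝ, 0 < δ → δ < 1 →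
      volume (thickening δ (kak n)) ≤ ENNReal.ofReal (C / Real.log (1 / δ) ^ (n - 1)) := by
  refine ⟨kak_compact n, fun e he => kak_segment hn e he, ?_⟩
  obtain ⟨C, hC, h⟩ := part_vol (n := n)
  refine ⟨n * (6 * C ^ (n - 1)), by positivity, fun δ hδ hδ1 => ?_⟩
  have hlam0 : 0 < Real.log (1 / δ) := Real.log_pos (by rw [lt_div_iff₀ hδ]; linarith)
  unfold kak
  rw [thickening_iUnion]
  refine (measure_iUnion_le _).trans ?_
  rw [tsum_fintype]
  refine (Finset.sum_le_sum fun j _ => h j δ hδ hδ1).trans ?_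
  rw [Finset.sum_const, Finset.card_univ, Fintype.card_fin, nsmul_eq_mul,
    ← ENNReal.ofReal_natCast, ← ENNReal.ofReal_mul (by positivity)]
  refine ENNReal.ofReal_le_ofReal (le_of_eq ?_)
  rw [div_pow]
  ring

end Pool.Agent.V7H94.Small
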